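import Mathlib

set_option autoImplicit false

namespace Pool.Agent.Results.MP_c68965_al.Spectrum

/-- `M 0, …, M (k - 1)` are maximal subgroups of `G` whose intersection is the Frattini subgroup. -/
def IsFamily (G : Type) [Group G] (k : ℕ) (M : Fin k → Subgroup G) : Prop :=
  (∀ i, IsCoatom (M i)) ∧ (⨅ i, M i) = frattini G

/-- Pairwise inconjugate maximal subgroups whose intersection is the Frattini subgroup. -/
def IsInconjugateFamily (G : Type) [Group G] (k : ℕ) (M : Fin k → Subgroup G) : Prop :=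
  (∀ i, IsCoatom (M i)) ∧
  (∀ i j, i ≠ j → ∀ g : G, (M i).map (MulAut.conj g).toMonoidHom ≠ M j) ∧
  (⨅ i, M i) = frattini G

/-- The intersection number `ι(G)` (`⊤` if there is no family). -/
noncomputable def iota (G : Type) [Group G] : ℕ∞ :=
  sInf {n : ℕ∞ | ∃ k : ℕ, 1 ≤ k ∧ n = k ∧ ∃ M : Fin k → Subgroup G, IsFamily G k M}

/-- The inconjugate intersection number `ι̂(G)` (`⊤` if there is no family). -/
noncomputable def iotaHat (G : Type) [Group G] : ℕ∞ :=
  sInf {n : ℕ∞ | ∃ k : ℕ, 1 ≤ k ∧ n = k ∧ ∃ M : Fin k → Subgroup G, IsInconjugateFamily G k M}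

theorem isCoatom_of_index_prime {G : Type} [Group G] {H : Subgroup G} (h : H.index.Prime) :
    IsCoatom H := by
  refine ⟨fun e => ?_, fun K hK => ?_⟩
  · rw [e, Subgroup.index_top] at h
    exact Nat.not_prime_one h
  · have hd := Subgroup.relIndex_mul_index hK.le
    rcases (Nat.dvd_prime h).1 ⟨_, hd.symm⟩ with h1 | h1
    · exfalso
      exact not_le_of_gt hK (Subgroup.relIndex_eq_one.1 h1)
    · rw [h1] at hd
      have : K.index = 1 := by
        have hp := h.pos
        have := Nat.eq_of_mul_eq_mul_left hp (hd.trans (mul_one _).symm)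
        exact this
      exact Subgroup.index_eq_one.1 this

/-- The group of maps `x ↦ u x + v` of `F_p ^ d` with `u` in the group `C` of scalars. -/
@[ext] structure Aff (p d : ℕ) (C : Subgroup (ZMod p)ˣ) where
  v : Fin d → ZMod p
  u : C

namespace Aff

variable {p d : ℕ} {C : Subgroup (ZMod p)ˣ}

/-- the scalar as an element of the field -/
def s (a : Aff p d C) : ZMod p := ((a.u : (ZMod p)ˣ) : ZMod p)

instance : Mul (Aff p d C) := ⟨fun a b => ⟨a.v + a.s • b.v, a.u * b.u⟩⟩
instance : One (Aff p d C) := ⟨⟨0, 1⟩⟩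
instance : Inv (Aff p d C) := ⟨fun a => ⟨-((((a.u⁻¹ : C) : (ZMod p)ˣ) : ZMod p) • a.v), a.u⁻¹⟩⟩

@[simp] lemma mul_v (a b : Aff p d C) : (a * b).v = a.v + a.s • b.v := rfl
@[simp] lemma mul_u (a b : Aff p d C) : (a * b).u = a.u * b.u := rfl
@[simp] lemma mul_s (a b : Aff p d C) : (a * b).s = a.s * b.s := by simp [s]
@[simp] lemma one_v : (1 : Aff p d C).v = 0 := rfl
@[simp] lemma one_u : (1 : Aff p d C).u = 1 := rfl
@[simp] lemma one_s : (1 : Aff p d C).s = 1 := by simp [s]
@[simp] lemma inv_u (a : Aff p d C) : (a⁻¹).u = a.u⁻¹ := rfl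
@[simp] lemma inv_v (a : Aff p d C) : (a⁻¹).v = -((a⁻¹).s • a.v) := rfl
lemma inv_s_mul (a : Aff p d C) : (a⁻¹).s * a.s = 1 := by simp [s]

instance : Group (Aff p d C) :=
  Group.ofLeftAxioms
    (by
      intro a b c
      ext i
      · simp [mul_assoc, add_assoc]
      · simp [mul_assoc])
    (by intro a; ext <;> simp)
    (by intro a; ext <;> simp)

def equiv (p d : ℕ) (C : Subgroup (ZMod p)ˣ) : Aff p d C ≃ (Fin d → ZMod p) × C where
  toFun a := (a.v, a.u)
  invFun a := ⟨a.1, a.2⟩
  left_inv _ := rfl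
  right_inv _ := rfl

/-- The projection to the scalars. -/
def proj (p d : ℕ) (C : Subgroup (ZMod p)ˣ) : Aff p d C →* C where
  toFun a := a.u
  map_one' := rfl
  map_mul' _ _ := rfl

lemma proj_surj : Function.Surjective (proj p d C) := fun u => ⟨⟨0, u⟩, rfl⟩

/-- translations along a vector `w`. -/
def line (w : Fin d → ZMod p) : Multiplicative (ZMod p) →* Aff p d C where
  toFun t := ⟨t.toAdd • w, 1⟩
  map_one' := by ext <;> simp
  map_mul' a b := by ext <;> simp [s, add_mul]

lemma line_normal (w : Fin d → ZMod p) : (line (C := C) w).range.Normal := by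
  constructor
  rintro _ ⟨t, rfl⟩ g
  refine ⟨Multiplicative.ofAdd (g.s * t.toAdd), ?_⟩
  ext i
  · simp only [line, MonoidHom.coe_mk, OneHom.coe_mk, toAdd_ofAdd, mul_v, inv_v, mul_s,
      Pi.smul_apply, smul_eq_mul, Pi.add_apply, Pi.neg_apply]
    have h1 : g.s * (g⁻¹).s = 1 := by rw [mul_comm]; exact inv_s_mul g
    have h2 : (s (⟨t.toAdd • w, 1⟩ : Aff p d C)) = 1 := by simp [s]
    rw [h2]
    linear_combination (g.v i) * h1
  · simp [line]

/-- The action of the group on `F_p` given by a functional `f`. -/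
def act (f : Fin d → ZMod p) (a : Aff p d C) (x : ZMod p) : ZMod p :=
  a.s * x + f ⬝ᵥ a.v

lemma act_mul (f : Fin d → ZMod p) (a b : Aff p d C) (x : ZMod p) :
    act f (a * b) x = act f a (act f b x) := by
  simp only [act, mul_s, mul_v, dotProduct_add, dotProduct_smul, smul_eq_mul]
  ring

lemma act_one (f : Fin d → ZMod p) (x : ZMod p) : act f (1 : Aff p d C) x = x := by simp [act]

/-- the action as an instance argument -/
@[reducible] def mulAction (f : Fin d → ZMod p) : MulAction (Aff p d C) (ZMod p) where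
  smul a x := act f a x
  one_smul x := act_one f x
  mul_smul a b x := act_mul f a b x

/-- the stabilizer of the point `c` for the action of `f` -/
def stab (f : Fin d → ZMod p) (c : ZMod p) : Subgroup (Aff p d C) :=
  letI := mulAction (C := C) f
  MulAction.stabilizer (Aff p d C) c

lemma mem_stab {f : Fin d → ZMod p} {c : ZMod p} {a : Aff p d C} :
    a ∈ stab f c ↔ a.s * c + f ⬝ᵥ a.v = c := Iff.rfl

variable [Fact p.Prime]

lemma exists_vec {f : Fin d → ZMod p} (h : f ≠ 0) (t : ZMod p) :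
    ∃ v : Fin d → ZMod p, f ⬝ᵥ v = t := by
  obtain ⟨i, hi⟩ := Function.ne_iff.1 h
  refine ⟨Pi.single i ((f i)⁻¹ * t), ?_⟩
  rw [dotProduct_single, ← mul_assoc, mul_inv_cancel₀ hi, one_mul]

lemma index_stab {f : Fin d → ZMod p} (h : f ≠ 0) (c : ZMod p) :
    (stab (C := C) f c).index = p := by
  let _ := mulAction (C := C) f
  have : MulAction.IsPretransitive (Aff p d C) (ZMod p) := by
    constructor
    intro x y
    obtain ⟨v, hv⟩ := exists_vec h (y - x)
    refine ⟨⟨v, 1⟩, ?_⟩
    show act f _ x = y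
    simp [act, s, hv]
  have := MulAction.index_stabilizer_of_transitive (Aff p d C) c
  rw [Nat.card_zmod] at this
  exact this

lemma isCoatom_stab {f : Fin d → ZMod p} (h : f ≠ 0) (c : ZMod p) :
    IsCoatom (stab (C := C) f c) := by
  apply isCoatom_of_index_prime
  rw [index_stab h]
  exact Fact.out

/-- Stabilizers for non-proportional functionals are inconjugate. -/
lemma not_conj {f f' : Fin d → ZMod p} {c c' : ZMod p} (v : Fin d → ZMod p)
    (hv : f ⬝ᵥ v = 0) (hv' : f' ⬝ᵥ v ≠ 0) (g : Aff p d C) :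
    (stab f c).map (MulAut.conj g).toMonoidHom ≠ stab f' c' := by
  intro h
  have h1 : (⟨v, 1⟩ : Aff p d C) ∈ stab f c := by
    rw [mem_stab]; simp [hv, s]
  have h2 : g * ⟨v, 1⟩ * g⁻¹ ∈ stab f' c' := by
    rw [← h]
    exact ⟨_, h1, rfl⟩
  rw [mem_stab] at h2
  have hu : g.s * (g⁻¹).s = 1 := by rw [mul_comm]; exact inv_s_mul g
  have h4 : (s (⟨v, 1⟩ : Aff p d C)) = 1 := by simp [s]
  simp only [mul_s, mul_v, inv_v, dotProduct_add, dotProduct_smul, dotProduct_neg, smul_eq_mul,
    h4] at h2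
  have h3 : g.s * (f' ⬝ᵥ v) = 0 := by
    linear_combination h2 + (f' ⬝ᵥ g.v - c') * hu
  have h5 : g.s ≠ 0 := by
    intro h0
    rw [h0, zero_mul] at hu
    exact zero_ne_one hu
  exact hv' ((mul_eq_zero.mp h3).resolve_left h5)

instance : Finite (Aff p d C) := Finite.of_equiv _ (equiv p d C).symm

lemma card_aff : Nat.card (Aff p d C) = p ^ d * Nat.card C := by
  rw [Nat.card_congr (equiv p d C), Nat.card_prod, Nat.card_fun, Nat.card_zmod, Nat.card_fin]

/-- every maximal subgroup has index at most `p`. -/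
lemma index_le {M : Subgroup (Aff p d C)} (hM : IsCoatom M) : M.index ≤ p := by
  by_cases hker : (proj p d C).ker ≤ M
  · have h1 : M.index ∣ (proj p d C).ker.index := Subgroup.index_dvd_of_le hker
    have h2 : (proj p d C).ker.index = Nat.card C := by
      rw [Subgroup.index_ker, MonoidHom.range_eq_top.2 proj_surj, Subgroup.card_top]
    have h3 : Nat.card C ≤ Nat.card (ZMod p)ˣ := Nat.card_le_card_of_injective _ C.subtype_injective
    have h4 : Nat.card (ZMod p)ˣ = p - 1 := by
      rw [Nat.card_eq_fintype_card, ZMod.card_units]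
    have h5 := Nat.le_of_dvd (by rw [h2]; exact Nat.card_pos) h1
    omega
  · obtain ⟨a, ha, haM⟩ := SetLike.not_le_iff_exists.1 hker
    have hau : a.u = 1 := ha
    have hN := line_normal (C := C) a.v
    set L := (line (C := C) a.v).range with hL
    have haL : a ∈ L := ⟨Multiplicative.ofAdd 1, by ext <;> simp [line, hau]⟩
    have htop : M ⊔ L = ⊤ := by
      apply hM.2
      refine lt_of_le_of_ne le_sup_left fun e => haM ?_
      rw [e]
      exact (le_sup_right : L ≤ M ⊔ L) haL
    have h1 : L.relIndex (M ⊔ L) = L.relIndex M := Subgroup.relIndex_sup_right M L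
    rw [htop, Subgroup.relIndex_top_right] at h1
    have h2 : L.relIndex M ≤ Nat.card M := by
      have := Subgroup.card_mul_index (L.subgroupOf M)
      have h3 : 0 < Nat.card (L.subgroupOf M) := Nat.card_pos
      have h4 : (L.subgroupOf M).index = L.relIndex M := rfl
      rw [h4] at this
      nlinarith
    have h3 : Nat.card L ≤ p := by
      have : Nat.card L ≤ Nat.card (Multiplicative (ZMod p)) :=
        Nat.card_le_card_of_surjective (line (C := C) a.v).rangeRestrict
          (MonoidHom.rangeRestrict_surjective _)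
      have h5 : Nat.card (Multiplicative (ZMod p)) = p := by
        rw [Nat.card_congr Multiplicative.toAdd, Nat.card_zmod]
      rwa [h5] at this
    have h6 := Subgroup.card_mul_index L
    have h7 := Subgroup.card_mul_index M
    have h8 : 0 < Nat.card M := Nat.card_pos
    have h9 : Nat.card M * M.index ≤ Nat.card M * p := by
      rw [h7, ← h6, h1]
      calc Nat.card L * L.relIndex M ≤ p * Nat.card M := Nat.mul_le_mul h3 h2
        _ = Nat.card M * p := mul_comm _ _
    exact Nat.le_of_mul_le_mul_left h9 h8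

lemma lower {k : ℕ} {M : Fin k → Subgroup (Aff p d C)} (hM : ∀ i, IsCoatom (M i))
    (hbot : (⨅ i, M i) = ⊥) : p ^ d * Nat.card C ≤ p ^ k := by
  have h1 := Subgroup.index_iInf_le M
  rw [hbot, Subgroup.index_bot, card_aff] at h1
  refine h1.trans ?_
  calc ∏ i, (M i).index ≤ ∏ _i : Fin k, p := Finset.prod_le_prod' fun i _ => index_le (hM i)
    _ = p ^ k := by simp

/-- the family `x_1 = 0, …, x_d = 0`, fixing the origin. -/
def fam0 (p d : ℕ) (C : Subgroup (ZMod p)ˣ) : Fin d → Subgroup (Aff p d C) :=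
  fun i => stab (Pi.single i 1) 0

/-- the `d + 1` maximal subgroups. -/
def fam (p d : ℕ) (C : Subgroup (ZMod p)ˣ) : Fin (d + 1) → Subgroup (Aff p d C) :=
  Fin.cons (stab (fun _ => 1) 1) (fam0 p d C)

lemma v_eq_zero {a : Aff p d C} (h : ∀ i, a ∈ fam0 p d C i) : a.v = 0 := by
  funext i
  have := h i
  rw [fam0, mem_stab] at this
  simpa using this

lemma iInf_fam : (⨅ i, fam p d C i) = ⊥ := by
  rw [eq_bot_iff]
  intro a ha
  rw [Subgroup.mem_iInf] at ha
  have h1 : a ∈ stab (fun _ => 1) 1 := by simpa [fam] using ha 0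
  have h0 : a.v = 0 := v_eq_zero fun i => by simpa [fam] using ha i.succ
  rw [mem_stab, h0] at h1
  simp only [mul_one, dotProduct_zero, add_zero] at h1
  rw [Subgroup.mem_bot]
  ext i
  · simp [h0]
  · simpa [s] using h1

lemma iInf_fam0 (hC : Nat.card C = 1) : (⨅ i, fam0 p d C i) = ⊥ := by
  rw [eq_bot_iff]
  intro a ha
  rw [Subgroup.mem_iInf] at ha
  have h0 : a.v = 0 := v_eq_zero ha
  rw [Subgroup.mem_bot]
  have hs : Subsingleton C := (Nat.card_eq_one_iff_unique.1 hC).1
  exact Aff.ext h0 (Subsingleton.elim _ _)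

lemma frattini_eq {k : ℕ} {M : Fin k → Subgroup (Aff p d C)} (hM : ∀ i, IsCoatom (M i))
    (hbot : (⨅ i, M i) = ⊥) : frattini (Aff p d C) = ⊥ := by
  rw [eq_bot_iff, ← hbot]
  exact le_iInf fun i => frattini_le_coatom (hM i)

lemma single_ne (i : Fin d) : (Pi.single i 1 : Fin d → ZMod p) ≠ 0 := by
  intro h
  have := congrFun h i
  simp at this

lemma coatom_fam0 (i : Fin d) : IsCoatom (fam0 p d C i) := isCoatom_stab (single_ne i) 0

lemma coatom_fam (hd : 0 < d) (i : Fin (d + 1)) : IsCoatom (fam p d C i) := by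
  refine Fin.cases ?_ (fun i => ?_) i
  · simp only [fam, Fin.cons_zero]
    refine isCoatom_stab (fun h => ?_) 1
    have := congrFun h ⟨0, hd⟩
    simp at this
  · simpa [fam] using coatom_fam0 i

lemma not_conj_fam0 {i j : Fin d} (hij : i ≠ j) (g : Aff p d C) :
    (fam0 p d C i).map (MulAut.conj g).toMonoidHom ≠ fam0 p d C j :=
  not_conj (Pi.single j 1) (by simp [hij]) (by simp) g

lemma exists_other (hd : 2 ≤ d) (i : Fin d) : ∃ l : Fin d, l ≠ i := by
  haveI : Nontrivial (Fin d) := Fin.nontrivial_iff_two_le.2 hd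
  exact exists_ne i

lemma not_conj_fam (hd : 2 ≤ d) {i j : Fin (d + 1)} (hij : i ≠ j) (g : Aff p d C) :
    (fam p d C i).map (MulAut.conj g).toMonoidHom ≠ fam p d C j := by
  revert hij
  refine Fin.cases ?_ (fun i => ?_) i
  · refine Fin.cases ?_ (fun j => ?_) j
    · intro h; exact absurd rfl h
    · intro _
      obtain ⟨l, hl⟩ := exists_other hd j
      simp only [fam, Fin.cons_zero, Fin.cons_succ]
      refine not_conj (Pi.single j 1 - Pi.single l 1) ?_ ?_ g
      · simp [dotProduct_sub]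
      · simp [dotProduct_sub, hl.symm]
  · refine Fin.cases ?_ (fun j => ?_) j
    · intro _
      obtain ⟨l, hl⟩ := exists_other hd i
      simp only [fam, Fin.cons_zero, Fin.cons_succ]
      refine not_conj (Pi.single l 1) ?_ ?_ g
      · simp [hl.symm]
      · simp
    · intro hij
      simp only [fam, Fin.cons_succ]
      exact not_conj_fam0 (fun h => hij (by rw [h])) g

/-- the derived length is at most two -/
lemma metabelian : derivedSeries (Aff p d C) 2 = ⊥ := by
  have h1 : derivedSeries (Aff p d C) 1 ≤ (proj p d C).ker := by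
    rw [derivedSeries_succ, derivedSeries_zero]
    rw [Subgroup.commutator_le]
    intro g _ h _
    rw [MonoidHom.mem_ker]
    simp [commutatorElement_def, mul_comm]
  rw [eq_bot_iff, derivedSeries_succ]
  refine (Subgroup.commutator_mono h1 h1).trans ?_
  rw [Subgroup.commutator_le]
  intro g hg h hh
  have hg' : g.u = 1 := hg
  have hh' : h.u = 1 := hh
  rw [Subgroup.mem_bot, commutatorElement_eq_one_iff_mul_comm]
  ext i
  · simp [s, hg', hh', add_comm]
  · simp [hg', hh']

end Aff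

open Aff

lemma iotaHat_le {G : Type} [Group G] {k : ℕ} (hk : 1 ≤ k) {M : Fin k → Subgroup G}
    (h : IsInconjugateFamily G k M) : iotaHat G ≤ k := sInf_le ⟨k, hk, rfl, M, h⟩

lemma iota_le_iotaHat (G : Type) [Group G] : iota G ≤ iotaHat G := by
  refine sInf_le_sInf ?_
  rintro _ ⟨k, hk, rfl, M, hM⟩
  exact ⟨k, hk, rfl, M, hM.1, hM.2.2⟩

lemma le_iota {p d : ℕ} [Fact p.Prime] {C : Subgroup (ZMod p)ˣ} {k : ℕ}
    (hfr : frattini (Aff p d C) = ⊥)
    (hk : ∀ j : ℕ, p ^ d * Nat.card C ≤ p ^ j → k ≤ j) : (k : ℕ∞) ≤ iota (Aff p d C) := by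
  refine le_sInf ?_
  rintro _ ⟨j, hj, rfl, M, hM, hM2⟩
  exact_mod_cast hk j (lower hM (by rw [hM2, hfr]))

/-- the groups with at least two primes -/
lemma iota_aff {p d : ℕ} [Fact p.Prime] {C : Subgroup (ZMod p)ˣ} (hd : 2 ≤ d)
    (hC : 2 ≤ Nat.card C) :
    iota (Aff p d C) = (d + 1 : ℕ) ∧ iotaHat (Aff p d C) = (d + 1 : ℕ) := by
  have hco : ∀ i, IsCoatom (fam p d C i) := coatom_fam (by omega)
  have hfr := frattini_eq hco iInf_fam
  have h1 : iotaHat (Aff p d C) ≤ (d + 1 : ℕ) :=
    iotaHat_le (by omega) ⟨hco, fun i j hij g => not_conj_fam hd hij g, by rw [iInf_fam, hfr]⟩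
  have h2 : ((d + 1 : ℕ) : ℕ∞) ≤ iota (Aff p d C) := by
    refine le_iota hfr fun j hj => ?_
    have hp : 1 < p := (Fact.out : p.Prime).one_lt
    have h3 : p ^ d < p ^ j := by
      have : 0 < p ^ d := pow_pos (by omega) d
      nlinarith
    exact (Nat.pow_lt_pow_iff_right hp).1 h3
  exact ⟨le_antisymm ((iota_le_iotaHat _).trans h1) h2,
    le_antisymm h1 (h2.trans (iota_le_iotaHat _))⟩

/-- elementary abelian groups -/
lemma iota_aff0 {p d : ℕ} [Fact p.Prime] {C : Subgroup (ZMod p)ˣ} (hd : 1 ≤ d)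
    (hC : Nat.card C = 1) :
    iota (Aff p d C) = (d : ℕ) ∧ iotaHat (Aff p d C) = (d : ℕ) := by
  have hco : ∀ i, IsCoatom (fam0 p d C i) := coatom_fam0
  have hfr := frattini_eq hco (iInf_fam0 hC)
  have h1 : iotaHat (Aff p d C) ≤ (d : ℕ) :=
    iotaHat_le (by omega) ⟨hco, fun i j hij g => not_conj_fam0 hij g, by rw [iInf_fam0 hC, hfr]⟩
  have h2 : ((d : ℕ) : ℕ∞) ≤ iota (Aff p d C) := by
    refine le_iota hfr fun j hj => ?_
    have hp : 1 < p := (Fact.out : p.Prime).one_lt
    rw [hC, mul_one] at hj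
    exact (Nat.pow_le_pow_iff_right hp).1 hj
  exact ⟨le_antisymm ((iota_le_iotaHat _).trans h1) h2,
    le_antisymm h1 (h2.trans (iota_le_iotaHat _))⟩

lemma nontrivial_aff {p d : ℕ} [Fact p.Prime] {C : Subgroup (ZMod p)ˣ} (hd : 1 ≤ d) :
    Nontrivial (Aff p d C) := by
  refine ⟨⟨⟨Pi.single ⟨0, hd⟩ 1, 1⟩, 1, fun h => ?_⟩⟩
  exact single_ne (p := p) (⟨0, hd⟩ : Fin d) (congrArg Aff.v h)

/-- `F_p ⋊ C` with `C` of prime order: the pair `(2, 2)`. -/
lemma iota_aff1 {p : ℕ} [Fact p.Prime] {C : Subgroup (ZMod p)ˣ} (hC : (Nat.card C).Prime) :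
    iota (Aff p 1 C) = (2 : ℕ) ∧ iotaHat (Aff p 1 C) = (2 : ℕ) := by
  have hcard : 2 ≤ Nat.card C := hC.two_le
  haveI : Nontrivial C := Finite.one_lt_card_iff_nontrivial.1 hcard
  obtain ⟨w, hw⟩ := exists_ne (1 : C)
  have hker : (proj p 1 C).ker.index = Nat.card C := by
    rw [Subgroup.index_ker, MonoidHom.range_eq_top.2 proj_surj, Subgroup.card_top]
  set M : Fin 2 → Subgroup (Aff p 1 C) := ![fam0 p 1 C 0, (proj p 1 C).ker] with hM
  have hco : ∀ i, IsCoatom (M i) := by
    intro i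
    fin_cases i
    · exact coatom_fam0 0
    · apply isCoatom_of_index_prime
      show (proj p 1 C).ker.index.Prime
      rw [hker]; exact hC
  have hbot : (⨅ i, M i) = ⊥ := by
    rw [eq_bot_iff]
    intro a ha
    rw [Subgroup.mem_iInf] at ha
    have h0 : a.v = 0 := v_eq_zero fun i => by
      obtain rfl : i = 0 := Subsingleton.elim _ _
      exact ha 0
    have h1 : a.u = 1 := ha 1
    rw [Subgroup.mem_bot]
    exact Aff.ext h0 h1
  have hfr := frattini_eq hco hbot
  have hconj : ∀ i j, i ≠ j → ∀ g : Aff p 1 C, (M i).map (MulAut.conj g).toMonoidHom ≠ M j := by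
    intro i j hij g h
    fin_cases i <;> fin_cases j
    · exact hij rfl
    · have h1 : (⟨0, w⟩ : Aff p 1 C) ∈ M 0 := by
        show (⟨0, w⟩ : Aff p 1 C) ∈ fam0 p 1 C 0
        rw [fam0, mem_stab]; simp
      have h2 : g * ⟨0, w⟩ * g⁻¹ ∈ (proj p 1 C).ker := by
        have : g * ⟨0, w⟩ * g⁻¹ ∈ M 1 := h ▸ ⟨_, h1, rfl⟩
        exact this
      have h3 : (g * ⟨0, w⟩ * g⁻¹ : Aff p 1 C).u = 1 := h2
      apply hw
      have h4 : g.u * w * (g.u)⁻¹ = 1 := h3
      rwa [mul_inv_eq_one, mul_eq_left] at h4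
    · have h1 : (⟨0, w⟩ : Aff p 1 C) ∈ M 0 := by
        show (⟨0, w⟩ : Aff p 1 C) ∈ fam0 p 1 C 0
        rw [fam0, mem_stab]; simp
      have h2 : (⟨0, w⟩ : Aff p 1 C) ∈ (M 1).map (MulAut.conj g).toMonoidHom := h ▸ h1
      obtain ⟨b, hb, hbe⟩ := h2
      have hb1 : b.u = 1 := hb
      have h3 : (g * b * g⁻¹).u = w := congrArg Aff.u hbe
      apply hw
      rw [← h3]
      simp [hb1]
    · exact hij rfl
  have h1 : iotaHat (Aff p 1 C) ≤ (2 : ℕ) :=
    iotaHat_le (by omega) ⟨hco, hconj, by rw [hbot, hfr]⟩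
  have h2 : ((2 : ℕ) : ℕ∞) ≤ iota (Aff p 1 C) := by
    refine le_iota hfr fun j hj => ?_
    have hp : 1 < p := (Fact.out : p.Prime).one_lt
    have h3 : p ^ 1 < p ^ j := by
      have : 0 < p ^ 1 := pow_pos (by omega) 1
      nlinarith
    exact (Nat.pow_lt_pow_iff_right hp).1 h3
  exact ⟨le_antisymm ((iota_le_iotaHat _).trans h1) h2,
    le_antisymm h1 (h2.trans (iota_le_iotaHat _))⟩

/-- a subgroup of `F_p^×` of prescribed order -/
lemma exists_subgroup {p N : ℕ} [Fact p.Prime] (hdvd : N ∣ p - 1) :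
    ∃ C : Subgroup (ZMod p)ˣ, Nat.card C = N := by
  have hp : p.Prime := Fact.out
  obtain ⟨g, hg⟩ := IsCyclic.exists_generator (α := (ZMod p)ˣ)
  have hog : orderOf g = p - 1 := by
    rw [orderOf_eq_card_of_forall_mem_zpowers hg, Nat.card_eq_fintype_card, ZMod.card_units]
  have hp1 : 0 < p - 1 := by have := hp.one_lt; omega
  obtain ⟨r, hr⟩ := hdvd
  have hr0 : r ≠ 0 := by rintro rfl; omega
  have hord : orderOf (g ^ r) = N := by
    rw [orderOf_pow_of_dvd hr0 ⟨N, by rw [hog, hr, mul_comm]⟩, hog, hr]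
    exact Nat.mul_div_cancel _ (Nat.pos_of_ne_zero hr0)
  exact ⟨Subgroup.zpowers (g ^ r), by rw [Nat.card_zpowers, hord]⟩

/-- Realization: for `(k, n) = (1, 1), (2, 1), (2, 2)` and for every `k ≥ 3`, `n ≥ 1` there is a
finite metabelian group `G` with `ι(G) = ι̂(G) = k` and `|π(G)| = n`. -/
theorem result : ∀ k n : ℕ, 1 ≤ k → 1 ≤ n → (k ≤ 2 → n ≤ k) →
    ∃ (G : Type) (_ : Group G) (_ : Finite G) (_ : Nontrivial G),
      derivedSeries G 2 = ⊥ ∧ iota G = k ∧ iotaHat G = k ∧
        (Nat.card G).primeFactors.card = n := by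
  intro k n hk hn hkn
  rcases Nat.lt_or_ge n 2 with h2 | h2
  · obtain rfl : n = 1 := by omega
    haveI : Fact (Nat.Prime 2) := ⟨Nat.prime_two⟩
    have hC : Nat.card (⊥ : Subgroup (ZMod 2)ˣ) = 1 := by simp
    have h := iota_aff0 (p := 2) (d := k) (C := ⊥) (by omega) hC
    refine ⟨Aff 2 k ⊥, inferInstance, inferInstance, nontrivial_aff (by omega), metabelian,
      h.1, h.2, ?_⟩
    rw [card_aff, hC, mul_one, Nat.primeFactors_prime_pow (by omega) Nat.prime_two]
    simp
  · rcases Nat.lt_or_ge k 3 with h3 | h3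
    · obtain rfl : k = 2 := by
        have := hkn (by omega)
        omega
      obtain rfl : n = 2 := by
        have := hkn (by omega)
        omega
      haveI : Fact (Nat.Prime 3) := ⟨Nat.prime_three⟩
      obtain ⟨C, hC⟩ := exists_subgroup (p := 3) (N := 2) (by norm_num)
      have h := iota_aff1 (p := 3) (C := C) (by rw [hC]; exact Nat.prime_two)
      refine ⟨Aff 3 1 C, inferInstance, inferInstance, nontrivial_aff (by omega), metabelian,
        h.1, h.2, ?_⟩
      rw [card_aff, hC]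
      rw [pow_one, Nat.primeFactors_mul (by norm_num) (by norm_num),
        Nat.Prime.primeFactors Nat.prime_three, Nat.Prime.primeFactors Nat.prime_two]
      rfl
    · obtain ⟨t, ht, htn⟩ := Nat.infinite_setOfPred_prime.exists_subset_card_eq (n - 1)
      have htp : ∀ q ∈ t, q.Prime := fun q hq => ht hq
      set N := ∏ q ∈ t, q with hNdef
      have hN : N.primeFactors = t := Nat.primeFactors_prod htp
      have hN0 : N ≠ 0 := Finset.prod_ne_zero_iff.mpr fun q hq => (htp q hq).ne_zero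
      have hN2 : 2 ≤ N := by
        have : t.Nonempty := by
          rw [← Finset.card_pos, htn]; omega
        obtain ⟨q, hq⟩ := this
        exact (htp q hq).two_le.trans (Nat.le_of_dvd (Nat.pos_of_ne_zero hN0)
          (Finset.dvd_prod_of_mem _ hq))
      obtain ⟨p, hp, hpN, hmod⟩ := Nat.exists_prime_gt_modEq_one (k := N) N hN0
      haveI : Fact p.Prime := ⟨hp⟩
      obtain ⟨C, hC⟩ := exists_subgroup (p := p) (N := N)
        ((Nat.modEq_iff_dvd' hp.one_le).mp hmod.symm)
      have h := iota_aff (p := p) (d := k - 1) (C := C) (by omega) (by omega)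
      have hk1 : k - 1 + 1 = k := by omega
      rw [hk1] at h
      refine ⟨Aff p (k - 1) C, inferInstance, inferInstance, nontrivial_aff (by omega),
        metabelian, h.1, h.2, ?_⟩
      rw [card_aff, hC, Nat.primeFactors_mul (pow_ne_zero _ hp.ne_zero) hN0,
        Nat.primeFactors_prime_pow (by omega) hp, hN, Finset.card_union_of_disjoint, htn]
      · simp; omega
      · rw [Finset.disjoint_singleton_left]
        intro hpt
        have := Nat.le_of_dvd (Nat.pos_of_ne_zero hN0) (Finset.dvd_prod_of_mem (fun q => q) hpt)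
        omega

end Pool.Agent.Results.MP_c68965_al.Spectrum
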